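import Mathlib
import Pool.Agent.H27.G.R_seed8.H306R2.RZ.Defs
import Pool.Agent.H27.G.R_seed8.H987R2.RZ_P3

set_option autoImplicit false

namespace Pool.Agent.H66R2.RZP4

open Finset Filter Topology MeasureTheory Pool.Agent.H306R2.RZ
open Pool.Agent.H987R2.RZ (P2 P3)

theorem Gk_one (k : ℤ) : Gk k 1 = 1 := by
  simp [Gk, js, cas]

theorem Gk_add (k t : ℤ) (n : ℕ) : Gk (k + n * t) n = Gk k n := by
  unfold Gk
  apply Finset.sum_congr rfl
  intro r hr
  have hn : (n : ℝ) ≠ 0 := by
    have := Finset.mem_range.mp hr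
    have : n ≠ 0 := by omega
    exact_mod_cast this
  have e : 2 * Real.pi * ((k + n * t : ℤ) : ℝ) * (r : ℝ) / (n : ℝ) =
      2 * Real.pi * (k : ℝ) * (r : ℝ) / (n : ℝ) + ((t * r : ℤ) : ℝ) * (2 * Real.pi) := by
    push_cast
    field_simp
  rw [e]
  unfold cas
  rw [Real.cos_add_int_mul_two_pi, Real.sin_add_int_mul_two_pi]

theorem odd_factors {m n : ℕ} (h : Odd (m * n)) : Odd m ∧ Odd n := Nat.odd_mul.mp h

theorem isSquare_mul {m n : ℕ} (h : m.Coprime n) : IsSquare (m * n) ↔ IsSquare m ∧ IsSquare n := by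
  constructor
  · rintro ⟨r, hr⟩
    have hr2 : m * n = r ^ 2 := by rw [hr, sq]
    have h1 : IsUnit (gcd m n) := by
      rw [Nat.isUnit_iff]; exact h
    have h2 : IsUnit (gcd n m) := by
      rw [Nat.isUnit_iff]; exact h.symm
    obtain ⟨a, ha⟩ := exists_eq_pow_of_mul_eq_pow h1 hr2
    obtain ⟨b, hb⟩ := exists_eq_pow_of_mul_eq_pow h2 (by rw [mul_comm]; exact hr2)
    exact ⟨⟨a, by rw [ha, sq]⟩, ⟨b, by rw [hb, sq]⟩⟩
  · rintro ⟨h1, h2⟩
    exact h1.mul h2

theorem isSquare_pow {p : ℕ} (hp : p.Prime) (b : ℕ) : IsSquare (p ^ b) ↔ Even b := by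
  constructor
  · rintro ⟨r, hr⟩
    have hr2 : p ^ b = r ^ 2 := by rw [hr, sq]
    have h1 : (p ^ b).factorization p = b := by
      rw [hp.factorization_pow]; simp
    have h2 : (r ^ 2).factorization p = 2 * r.factorization p := by
      rw [Nat.factorization_pow]; simp
    rw [← h1, hr2, h2]
    exact even_two_mul _
  · intro h
    exact h.isSquare_pow p

theorem P4a (n : ℕ) (hn : Odd n) : Gk 0 n = if IsSquare n then (n.totient : ℝ) else 0 := by
  induction n using Nat.recOnPosPrimePosCoprime with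
  | prime_pow p b hp hb =>
    have hp2 : p ≠ 2 := by
      rintro rfl
      rw [Nat.odd_pow_iff hb.ne'] at hn
      exact absurd hn (by decide)
    have h1 := P3 p hp hp2 b b hb 1 (by
      intro h
      have := Int.isUnit_iff.mp (isUnit_of_dvd_one h)
      have h2 := hp.one_lt
      omega)
    rw [if_pos le_rfl, mul_one] at h1
    have h2 : Gk ((p : ℤ) ^ b) (p ^ b) = Gk 0 (p ^ b) := by
      have := Gk_add 0 1 (p ^ b)
      rw [← this]
      congr 1
      push_cast; ring
    rw [h2] at h1
    rw [h1]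
    simp only [isSquare_pow hp]
  | zero => exact absurd hn (by decide)
  | one => rw [Gk_one]; simp
  | coprime a b ha hb hab iha ihb =>
    obtain ⟨h1, h2⟩ := odd_factors hn
    rw [P2 0 a b h1 h2 hab, iha h1, ihb h2, Nat.totient_mul hab]
    simp only [isSquare_mul hab]
    by_cases h3 : IsSquare a <;> by_cases h4 : IsSquare b <;> simp [h3, h4]

theorem P4b (k : ℤ) (n : ℕ) (hn : Odd n) (h : n.Coprime k.natAbs) :
    Gk k n = if Squarefree n then js k n * Real.sqrt n else 0 := by
  induction n using Nat.recOnPosPrimePosCoprime with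
  | prime_pow p b hp hb =>
    have hp2 : p ≠ 2 := by
      rintro rfl
      rw [Nat.odd_pow_iff hb.ne'] at hn
      exact absurd hn (by decide)
    have hk : ¬ (p : ℤ) ∣ k := by
      intro h1
      have h2 : p ∣ k.natAbs := Int.natCast_dvd.mp h1
      have h3 : p ∣ p ^ b := dvd_pow_self p hb.ne'
      have := Nat.dvd_gcd h3 h2
      rw [h] at this
      exact hp.one_lt.ne' (Nat.dvd_one.mp this)
    have h1 := P3 p hp hp2 0 b hb k hk
    rw [if_neg (by omega), pow_zero, one_mul] at h1
    rw [h1]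
    by_cases hb1 : b = 1
    · subst hb1
      simp [hp.squarefree]
    · rw [if_neg (by omega), if_neg]
      rw [Nat.squarefree_pow_iff hp.ne_one hb.ne']
      tauto
  | zero => exact absurd hn (by decide)
  | one => rw [Gk_one]; simp [js]
  | coprime a b ha hb hab iha ihb =>
    obtain ⟨h1, h2⟩ := odd_factors hn
    rw [P2 k a b h1 h2 hab, iha h1 (Nat.Coprime.coprime_mul_right h),
      ihb h2 (Nat.Coprime.coprime_mul_left h)]
    simp only [Nat.squarefree_mul hab]
    have e : js k (a * b) = js k a * js k b := by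
      unfold js
      rw [jacobiSym.mul_right' k (by omega) (by omega)]
      push_cast; ring
    by_cases h3 : Squarefree a <;> by_cases h4 : Squarefree b <;> simp [h3, h4]
    rw [e]; ring

theorem js_abs (k : ℤ) (n : ℕ) : |js k n| ≤ 1 := by
  unfold js
  rcases jacobiSym.trichotomy k n with h | h | h <;> rw [h] <;> simp

theorem P4c (k : ℤ) (hk : k ≠ 0) (n : ℕ) (hn : Odd n) :
    |Gk k n| ≤ Real.sqrt n * Real.sqrt (n.gcd k.natAbs) ∧
    (Gk k n ≠ 0 → n ∣ k.natAbs * ∏ p ∈ n.primeFactors, p) := by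
  induction n using Nat.recOnPosPrimePosCoprime with
  | prime_pow p b hp hb =>
    have hp2 : p ≠ 2 := by
      rintro rfl
      rw [Nat.odd_pow_iff hb.ne'] at hn
      exact absurd hn (by decide)
    have hpZ : Prime (p : ℤ) := Nat.prime_iff_prime_int.mp hp
    obtain ⟨α, k', hk', hkk⟩ : ∃ α : ℕ, ∃ k' : ℤ, ¬ (p : ℤ) ∣ k' ∧ k = (p : ℤ) ^ α * k' := by
      have hf : FiniteMultiplicity (p : ℤ) k := by
        apply Int.finiteMultiplicity_iff.mpr
        refine ⟨?_, hk⟩
        rw [Int.natAbs_natCast]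
        exact hp.ne_one
      obtain ⟨k', h1, h2⟩ := hf.exists_eq_pow_mul_and_not_dvd
      exact ⟨_, k', h2, h1⟩
    have h1 := P3 p hp hp2 α b hb k' hk'
    rw [← hkk] at h1
    have hnat : k.natAbs = p ^ α * k'.natAbs := by
      rw [hkk, Int.natAbs_mul, Int.natAbs_pow, Int.natAbs_natCast]
    have hpf : ∏ q ∈ (p ^ b).primeFactors, q = p := by
      rw [Nat.primeFactors_prime_pow hb.ne' hp]; simp
    have hp0 : (0 : ℝ) < p := by exact_mod_cast hp.pos
    rw [hpf]
    by_cases hba : b ≤ α
    · rw [if_pos hba] at h1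
      have hdvd : p ^ b ∣ k.natAbs := by
        rw [hnat]; exact Dvd.dvd.mul_right (pow_dvd_pow p hba) _
      refine ⟨?_, fun _ => Dvd.dvd.mul_right hdvd _⟩
      rw [Nat.gcd_eq_left hdvd, Real.mul_self_sqrt (Nat.cast_nonneg _), h1]
      split_ifs
      · rw [abs_of_nonneg (Nat.cast_nonneg _)]
        exact_mod_cast Nat.totient_le _
      · rw [abs_zero]; exact Nat.cast_nonneg _
    · rw [if_neg hba] at h1
      by_cases hb1 : b = α + 1
      · rw [if_pos hb1] at h1
        have hg : (p ^ b).gcd k.natAbs = p ^ α := by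
          rw [hnat, hb1, pow_succ, Nat.gcd_mul_left]
          have : Nat.gcd p k'.natAbs = 1 := by
            apply (Nat.Prime.coprime_iff_not_dvd hp).mpr
            intro h
            exact hk' (Int.natCast_dvd.mpr h)
          rw [this, mul_one]
        constructor
        · rw [hg, ← Real.sqrt_mul (Nat.cast_nonneg _)]
          have e : ((p ^ b : ℕ) : ℝ) * ((p ^ α : ℕ) : ℝ) = (p : ℝ) * ((p : ℝ) ^ α) ^ 2 := by
            rw [hb1]; push_cast; ring
          rw [e, Real.sqrt_mul hp0.le, Real.sqrt_sq (by positivity), h1]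
          have hs1 : 1 ≤ Real.sqrt p := by
            rw [Real.one_le_sqrt]; exact_mod_cast hp.one_lt.le
          split_ifs
          · rw [abs_neg, abs_of_pos (by positivity)]
            have : (0 : ℝ) < (p : ℝ) ^ α := by positivity
            nlinarith
          · rw [abs_mul, abs_mul, abs_of_pos (show (0 : ℝ) < (p : ℝ) ^ α by positivity),
              abs_of_nonneg (Real.sqrt_nonneg _)]
            calc |js k' p| * (p : ℝ) ^ α * Real.sqrt p ≤ 1 * (p : ℝ) ^ α * Real.sqrt p := by
                  gcongr; exact js_abs k' p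
              _ = Real.sqrt p * (p : ℝ) ^ α := by ring
        · intro _
          rw [hnat, hb1, pow_succ]
          exact Nat.mul_dvd_mul (Dvd.intro _ rfl) dvd_rfl
      · rw [if_neg hb1] at h1
        rw [h1]
        refine ⟨?_, fun h => absurd rfl h⟩
        rw [abs_zero]; positivity
  | zero => exact absurd hn (by decide)
  | one =>
    rw [Gk_one]
    simp
  | coprime a b ha hb hab iha ihb =>
    obtain ⟨h1, h2⟩ := odd_factors hn
    obtain ⟨ia1, ia2⟩ := iha h1
    obtain ⟨ib1, ib2⟩ := ihb h2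
    rw [P2 k a b h1 h2 hab]
    constructor
    · rw [abs_mul, hab.mul_gcd]
      calc |Gk k a| * |Gk k b| ≤ (Real.sqrt a * Real.sqrt (a.gcd k.natAbs)) *
            (Real.sqrt b * Real.sqrt (b.gcd k.natAbs)) := by gcongr
        _ = _ := by
            push_cast
            rw [Real.sqrt_mul (Nat.cast_nonneg _), Real.sqrt_mul (Nat.cast_nonneg _)]
            ring
    · intro h0
      have h3 : Gk k a ≠ 0 := left_ne_zero_of_mul h0
      have h4 : Gk k b ≠ 0 := right_ne_zero_of_mul h0
      apply Nat.Coprime.mul_dvd_of_dvd_of_dvd hab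
      · refine (ia2 h3).trans (Nat.mul_dvd_mul dvd_rfl ?_)
        apply Finset.prod_dvd_prod_of_subset
        exact Nat.primeFactors_mono (Dvd.intro _ rfl) (by positivity)
      · refine (ib2 h4).trans (Nat.mul_dvd_mul dvd_rfl ?_)
        apply Finset.prod_dvd_prod_of_subset
        exact Nat.primeFactors_mono (Dvd.intro_left _ rfl) (by positivity)

end Pool.Agent.H66R2.RZP4
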